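import Pool.Agent.W990.EB.Stm

/-!
# Project EB: bounds for the sum over quadruples
-/

set_option autoImplicit false
open Finset

namespace Pool.Agent.W63.EB.BD

open Pool.Agent.W990.EB

theorem w_zero (K : ℕ) (hK : 1 ≤ K) (m : ℤ) (hm : (K : ℤ) < |m|) : w K m = 0 := by
  unfold w
  have h0 : m ≠ 0 := by
    rintro rfl
    simp at hm
    omega
  rw [if_neg h0]
  have : ∑ i ∈ range K, ∑ j ∈ range K, (if m = (i : ℤ) - (j : ℤ) then (1 : ℝ) else 0) = 0 := by
    apply Finset.sum_eq_zero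
    intro i hi
    apply Finset.sum_eq_zero
    intro j hj
    rw [Finset.mem_range] at hi hj
    rw [if_neg]
    intro h
    rw [h] at hm
    have : |(i : ℤ) - (j : ℤ)| ≤ K := by
      rw [abs_le]; constructor <;> omega
    omega
  rw [this]; ring

theorem w_le (K : ℕ) (hK : 1 ≤ K) (m : ℤ) : |w K m| ≤ 2 := by
  unfold w
  have h1 : |(if m = 0 then (1 : ℝ) else 0)| ≤ 1 := by split_ifs <;> simp
  have hs0 : 0 ≤ ∑ i ∈ range K, ∑ j ∈ range K,
      (if m = (i : ℤ) - (j : ℤ) then (1 : ℝ) else 0) := by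
    apply Finset.sum_nonneg; intro i _
    apply Finset.sum_nonneg; intro j _
    split_ifs <;> norm_num
  have hs1 : ∑ i ∈ range K, ∑ j ∈ range K,
      (if m = (i : ℤ) - (j : ℤ) then (1 : ℝ) else 0) ≤ (K : ℝ) ^ 2 := by
    calc ∑ i ∈ range K, ∑ j ∈ range K, (if m = (i : ℤ) - (j : ℤ) then (1 : ℝ) else 0)
        ≤ ∑ i ∈ range K, ∑ j ∈ range K, (1 : ℝ) := by
          apply Finset.sum_le_sum; intro i _
          apply Finset.sum_le_sum; intro j _
          split_ifs <;> norm_num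
      _ = (K : ℝ) ^ 2 := by simp; ring
  have hK0 : (0 : ℝ) < (K : ℝ) ^ 2 := by positivity
  have h2 : |1 / (K : ℝ) ^ 2 * ∑ i ∈ range K, ∑ j ∈ range K,
      (if m = (i : ℤ) - (j : ℤ) then (1 : ℝ) else 0)| ≤ 1 := by
    rw [abs_of_nonneg (by positivity), one_div, inv_mul_le_iff₀ hK0, mul_one]
    exact hs1
  calc _ ≤ |(if m = 0 then (1 : ℝ) else 0)| + |1 / (K : ℝ) ^ 2 * ∑ i ∈ range K,
        ∑ j ∈ range K, (if m = (i : ℤ) - (j : ℤ) then (1 : ℝ) else 0)| := abs_sub _ _
    _ ≤ 2 := by linarith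

theorem J_le (K : ℕ) (hK : 1 ≤ K) (S : Finset ℕ) (Q : ℝ → ℝ → ℝ → ℝ → ℝ) (t B : ℝ)
    (hB : 0 ≤ B) (hQ : ∀ a b c d : ℕ, |(a : ℤ) + d - b - c| ≤ K →
      |Q (t * a) (t * b) (t * c) (t * d)| ≤ B * Real.exp ((t * a + t * b + t * c + t * d) / 2)) :
    |J K S Q t| ≤ 2 * B * ∑ a ∈ S, ∑ b ∈ S, ∑ c ∈ S, ∑ d ∈ S,
    (if |(a : ℤ) + d - b - c| ≤ K then Real.exp (-(t * (a + b + c + d) / 2)) else 0) := by
  unfold J
  rw [Finset.mul_sum]
  refine le_trans (Finset.abs_sum_le_sum_abs _ _) (Finset.sum_le_sum fun a _ => ?_)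
  rw [Finset.mul_sum]
  refine le_trans (Finset.abs_sum_le_sum_abs _ _) (Finset.sum_le_sum fun b _ => ?_)
  rw [Finset.mul_sum]
  refine le_trans (Finset.abs_sum_le_sum_abs _ _) (Finset.sum_le_sum fun c _ => ?_)
  rw [Finset.mul_sum]
  refine le_trans (Finset.abs_sum_le_sum_abs _ _) (Finset.sum_le_sum fun d _ => ?_)
  by_cases hm : |(a : ℤ) + d - b - c| ≤ K
  · rw [if_pos hm, abs_mul, abs_mul, abs_of_pos (Real.exp_pos _)]
    have h1 := w_le K hK ((a : ℤ) + d - b - c)
    have h2 := hQ a b c d hm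
    calc |w K ((a : ℤ) + d - b - c)| * (|Q (t * a) (t * b) (t * c) (t * d)| *
          Real.exp (-(t * (a + b + c + d))))
        ≤ 2 * ((B * Real.exp ((t * a + t * b + t * c + t * d) / 2)) *
          Real.exp (-(t * (a + b + c + d)))) := by
          apply mul_le_mul h1 _ (by positivity) (by norm_num)
          exact mul_le_mul_of_nonneg_right h2 (Real.exp_pos _).le
      _ = 2 * B * Real.exp (-(t * (a + b + c + d) / 2)) := by
          rw [mul_assoc B, ← Real.exp_add]
          have : (t * a + t * b + t * c + t * d) / 2 + -(t * (a + b + c + d))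
            = -(t * (a + b + c + d) / 2) := by ring
          rw [this]; ring
  · rw [if_neg hm, w_zero K hK _ (not_le.1 hm)]
    simp

theorem bd (h : S_Q4) : S_BD := by
  rintro P ⟨C0, hC0, hP⟩ K R hK
  refine ⟨6 * C0 * K * R ^ 2 * (2 * K + 1), by positivity, ?_⟩
  intro S hS t ht ht1
  have hq := h K R S t hS ht ht1
  have hK1 : (1 : ℝ) ≤ K := by exact_mod_cast hK
  set Q4 : ℝ := ∑ a ∈ S, ∑ b ∈ S, ∑ c ∈ S, ∑ d ∈ S,
    (if |(a : ℤ) + d - b - c| ≤ K then Real.exp (-(t * (a + b + c + d) / 2)) else 0) with hQ4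
  have hPt : ∀ a b c d : ℕ, |P (t * a) (t * b) (t * c) (t * d)| ≤
      C0 * Real.exp ((t * a + t * b + t * c + t * d) / 2) := fun a b c d =>
    hP _ _ _ _ (by positivity) (by positivity) (by positivity) (by positivity)
  constructor
  · have h1 := J_le K hK S P t C0 hC0 (fun a b c d _ => hPt a b c d)
    calc |J K S P t| ≤ 2 * C0 * Q4 := h1
      _ ≤ 2 * C0 * ((R : ℝ) ^ 2 * (2 * K + 1) * (3 / t)) :=
          mul_le_mul_of_nonneg_left hq (by positivity)
      _ = 6 * C0 * 1 * R ^ 2 * (2 * K + 1) / t := by ring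
      _ ≤ 6 * C0 * K * R ^ 2 * (2 * K + 1) / t := by gcongr
  · have h2 := J_le K hK S (fun a b c d => (a + d - b - c) * P a b c d) t (t * K * C0)
      (by positivity) (fun a b c d hm => by
        show |(t * a + t * d - t * b - t * c) * P (t * a) (t * b) (t * c) (t * d)| ≤ _
        rw [abs_mul]
        have e : |t * a + t * d - t * b - t * c| ≤ t * K := by
          have : t * a + t * d - t * b - t * c = t * (((a : ℤ) + d - b - c : ℤ) : ℝ) := by
            push_cast; ring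
          rw [this, abs_mul, abs_of_pos ht]
          apply mul_le_mul_of_nonneg_left _ ht.le
          rw [← Int.cast_abs]
          exact_mod_cast hm
        calc _ ≤ t * K * (C0 * Real.exp ((t * a + t * b + t * c + t * d) / 2)) :=
              mul_le_mul e (hPt a b c d) (abs_nonneg _) (by positivity)
          _ = _ := by ring)
    calc |J K S (fun a b c d => (a + d - b - c) * P a b c d) t| ≤ 2 * (t * K * C0) * Q4 := h2
      _ ≤ 2 * (t * K * C0) * ((R : ℝ) ^ 2 * (2 * K + 1) * (3 / t)) :=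
          mul_le_mul_of_nonneg_left hq (by positivity)
      _ = 6 * C0 * K * R ^ 2 * (2 * K + 1) := by field_simp; ring

end Pool.Agent.W63.EB.BD
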